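import Mathlib

namespace Pool.Agent.Results.MP_3c3b39_pr.Strict

open Set

variable {S : Type} {d : ℕ}

/-- the cylinder `[x]_K` -/
def cyl (x : Fin d → S) (K : Set (Fin d)) : Set (Fin d → S) := {y | ∀ i ∈ K, y i = x i}

/-- the binary BKR product -/
def box (A B : Set (Fin d → S)) : Set (Fin d → S) :=
  {x | ∃ K L, Disjoint K L ∧ cyl x K ⊆ A ∧ cyl x L ⊆ B}

/-- the simultaneous BKR product -/
def sim {r : ℕ} (A : Fin r → Set (Fin d → S)) : Set (Fin d → S) :=
  {x | ∃ K : Fin r → Set (Fin d), Pairwise (fun i j => Disjoint (K i) (K j)) ∧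
    ∀ i, cyl x (K i) ⊆ A i}

/-- `X` is the value of some full parenthesisation of the word `l` -/
inductive Val : List (Set (Fin d → S)) → Set (Fin d → S) → Prop
  | one (A) : Val [A] A
  | mul {l m X Y} : Val l X → Val m Y → Val (l ++ m) (box X Y)

def A : Set (Fin 5 → Fin 3) := {x | ∃ i j, x i ≠ x j}

def P : ℕ → Set (Fin 5 → Fin 3)
  | 0 => univ
  | 1 => A
  | 2 => box A A
  | _ => box (box A A) A

theorem mono {X Y X' Y' : Set (Fin d → S)} (h : X ⊆ X') (k : Y ⊆ Y') : box X Y ⊆ box X' Y' :=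
  fun _ ⟨K, L, h1, h2, h3⟩ => ⟨K, L, h1, h2.trans h, h3.trans k⟩

theorem comm (X Y : Set (Fin d → S)) : box X Y ⊆ box Y X :=
  fun _ ⟨K, L, h1, h2, h3⟩ => ⟨L, K, h1.symm, h3, h2⟩

theorem unit (X : Set (Fin d → S)) : X ⊆ box X univ := fun x hx =>
  ⟨univ, ∅, by simp, fun y hy => (funext fun i => hy i trivial : y = x) ▸ hx, subset_univ _⟩

open Classical in
theorem val {l : List (Set (Fin 5 → Fin 3))} {X : Set (Fin 5 → Fin 3)} (h : Val l X) :
    (∀ B ∈ l, B = A ∨ B = univ) → l.countP (· ≠ univ) ≤ 3 → P (l.countP (· ≠ univ)) ⊆ X := by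
  induction h with
  | one B =>
    intro h _
    by_cases hB : B = univ
    · simp [hB]
    · rw [List.countP_singleton, if_pos (by simpa using hB), (h B (by simp)).resolve_right hB]
      rfl
  | @mul l m X Y _ _ ih1 ih2 =>
    intro h hc
    rw [List.countP_append] at hc ⊢
    refine subset_trans ?_ (mono (ih1 (fun B hB => h B (by simp [hB])) (by omega))
      (ih2 (fun B hB => h B (by simp [hB])) (by omega)))
    generalize l.countP (· ≠ univ) = a at *
    generalize m.countP (· ≠ univ) = b at *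
    have ha : a ≤ 3 := by omega
    have hb : b ≤ 3 := by omega
    interval_cases a <;> interval_cases b <;> first
      | omega | exact unit _ | exact (unit _).trans (comm _ _) | exact subset_rfl | exact comm _ _

theorem pair (x : Fin 5 → Fin 3) (i j : Fin 5) (h : x i ≠ x j) : cyl x {i, j} ⊆ A := fun y hy =>
  ⟨i, j, by rwa [hy i (by simp), hy j (by simp)]⟩

theorem mem : ![0, 1, 2, 0, 1] ∈ P 3 := by
  refine ⟨{0, 1, 2}, {3, 4}, by simp, fun y hy => ?_, pair _ _ _ (by decide)⟩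
  have h0 : y 0 = 0 := hy 0 (by simp)
  have h1 : y 1 = 1 := hy 1 (by simp)
  have h2 : y 2 = 2 := hy 2 (by simp)
  by_cases h : y 3 = 0
  · exact ⟨{0, 2}, {1, 3}, by simp, pair _ _ _ (by simp [h0, h2]), pair _ _ _ (by simp [h1, h])⟩
  · exact ⟨{1, 2}, {0, 3}, by simp, pair _ _ _ (by simp [h1, h2]),
      pair _ _ _ (by simpa [h0] using Ne.symm h)⟩

theorem two (x : Fin 5 → Fin 3) (K : Set (Fin 5)) (h : cyl x K ⊆ A) : 2 ≤ K.ncard := by
  by_contra hc
  have hK : K.Subsingleton := (ncard_le_one_iff_subsingleton).1 (by omega)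
  obtain rfl | ⟨k, rfl⟩ := hK.eq_empty_or_singleton
  · obtain ⟨_, _, h⟩ := h (a := fun _ => 0) (by simp [cyl])
    exact h rfl
  · obtain ⟨_, _, h⟩ := h (a := fun _ => x k) (by simp [cyl])
    exact h rfl

theorem result (r : ℕ) (hr : 3 ≤ r) : ∃ (S : Type) (_ : Nonempty S) (d : ℕ) (_ : 1 ≤ d)
    (A : Fin r → Set (Fin d → S)), sim A ⊂ ⋂₀ {X | Val (List.ofFn A) X} := by
  classical
  obtain ⟨n, rfl⟩ := Nat.exists_eq_add_of_le' hr
  refine ⟨Fin 3, inferInstance, 5, by norm_num, fun i => if (i : ℕ) < 3 then A else univ, ?_⟩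
  have h1 : sim (fun i : Fin (n + 3) => if (i : ℕ) < 3 then A else univ) = ∅ := by
    refine eq_empty_of_forall_notMem fun x ⟨K, hK, h⟩ => ?_
    have a0 := two x (K ⟨0, by omega⟩) (h ⟨0, by omega⟩)
    have a1 := two x (K ⟨1, by omega⟩) (h ⟨1, by omega⟩)
    have a2 := two x (K ⟨2, by omega⟩) (h ⟨2, by omega⟩)
    have e := ncard_le_card (K ⟨0, by omega⟩ ∪ K ⟨1, by omega⟩ ∪ K ⟨2, by omega⟩)
    rw [ncard_union_eq (disjoint_union_left.2 ⟨hK (by simp), hK (by simp)⟩),
      ncard_union_eq (hK (by simp))] at e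
    simp only [Nat.card_eq_fintype_card, Fintype.card_fin] at e
    omega
  rw [h1, empty_ssubset]
  refine ⟨![0, 1, 2, 0, 1], fun X hX => ?_⟩
  have hA : A ≠ univ := fun h => by
    obtain ⟨_, _, h⟩ : (fun _ => 0) ∈ A := h ▸ mem_univ _
    exact h rfl
  have hc : (List.ofFn fun i : Fin (n + 3) => if (i : ℕ) < 3 then A else univ).countP
      (· ≠ univ) = 3 := by
    simp [List.ofFn_succ, hA, List.countP_eq_zero]
  refine val hX (fun B hB => ?_) hc.le (by rw [hc]; exact mem)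
  obtain ⟨i, rfl⟩ := List.mem_ofFn.1 hB
  split_ifs <;> simp

end Pool.Agent.Results.MP_3c3b39_pr.Strict
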